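import Pool.Agent.helper71.CL.Spec

/-!
# Module POW of project cl: powers of the minimal volume ratio
-/

set_option autoImplicit false

open MeasureTheory Set Filter Topology
open scoped ENNReal
open Pool.Agent.helper81.CW

noncomputable section

namespace Pool.Agent.CL

private lemma POW_root (M a : ℝ≥0∞) (m : ℕ) (hm : 1 ≤ m) {ι : Type} (x : ι → ℝ≥0∞)
    (ha0 : a ≠ 0) (ha : a ≠ ∞) (h : ∀ i, M ≤ (a * x i) ^ m) : M ≤ (a * ⨅ i, x i) ^ m := by
  have hm0 : ((m : ℕ) : ℝ) ≠ 0 := by positivity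
  have h1 : ∀ i, M ^ ((m : ℝ)⁻¹) ≤ a * x i := by
    intro i
    have h2 := ENNReal.rpow_le_rpow (h i) (z := (m : ℝ)⁻¹) (by positivity)
    rw [← ENNReal.rpow_natCast, ENNReal.rpow_rpow_inv hm0] at h2
    exact h2
  have h3 : M ^ ((m : ℝ)⁻¹) ≤ a * ⨅ i, x i := by
    rw [ENNReal.mul_iInf_of_ne ha0 ha]
    exact le_iInf h1
  have h4 : M = (M ^ ((m : ℝ)⁻¹)) ^ m := by
    rw [← ENNReal.rpow_natCast, ENNReal.rpow_inv_rpow hm0]
  rw [h4]
  exact pow_le_pow_left' h3 m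

private lemma POW_ball (n : ℕ) : volume (Metric.closedBall (0 : E n) (1 / 2)) ≠ 0 ∧
    volume (Metric.closedBall (0 : E n) (1 / 2)) ≠ ∞ :=
  ⟨(Metric.measure_closedBall_pos volume (0 : E n) (by norm_num)).ne',
    measure_closedBall_lt_top.ne⟩

private lemma POW_div (s B X A V Bd : ℝ≥0∞) (m : ℕ) (hs0 : s ≠ 0) (hs : s ≠ ∞)
    (hX : X ≤ s * (A * V) ^ m) (hB : s * Bd ^ m ≤ B) : X / B ≤ (A * (V / Bd)) ^ m := by
  calc X / B ≤ (s * (A * V) ^ m) / (s * Bd ^ m) := ENNReal.div_le_div hX hB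
    _ = (A * V) ^ m / Bd ^ m := ENNReal.mul_div_mul_left _ _ hs0 hs
    _ = (A * (V / Bd)) ^ m := by
        rw [div_eq_mul_inv, ENNReal.inv_pow, ← mul_pow, div_eq_mul_inv, mul_assoc]

theorem POW (hMFO : MFO_stmt) (hVLE : VLE_stmt) (hTST : TST_stmt) (hBAM : BAM_stmt)
    (hMVN : MVN_stmt) : POW_stmt := by
  intro d m hd hm
  have ha0 : ENNReal.ofReal (8 * √(d : ℝ)) ≠ 0 := by
    have : 0 < 8 * √(d : ℝ) := by
      have : (0 : ℝ) < d := by exact_mod_cast hd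
      positivity
    exact (ENNReal.ofReal_pos.2 this).ne'
  have hmr : (0 : ℝ) < m := by exact_mod_cast hm
  have hs : 0 < 1 / √(m : ℝ) ^ (m * d) := by positivity
  rw [hMVN d]
  refine POW_root _ _ m hm _ ha0 ENNReal.ofReal_ne_top ?_
  rintro ⟨C, hC⟩
  obtain ⟨t, ht, _, hII⟩ := hTST d C hd hC
  obtain ⟨C', hC', hII'⟩ := hMFO d C t hC ht m hm (m * d) rfl
  have h1 := hVLE (m * d) C' (m * t) hC' (by positivity)
  have h2 : volume C' ≤ ENNReal.ofReal (1 / √(m : ℝ) ^ (m * d)) *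
      (ENNReal.ofReal (8 * √(d : ℝ)) * volume C) ^ m :=
    h1.trans (hII'.trans (mul_le_mul_right (pow_le_pow_left' hII m) _))
  have h3 : mvol (m * d) ≤ volume C' / volume (Metric.closedBall (0 : E (m * d)) (1 / 2)) := by
    rw [hMVN (m * d)]
    exact iInf_le _ (⟨C', hC'⟩ : {C : Set (E (m * d)) // ConstWidth C 1})
  refine h3.trans ?_
  exact POW_div _ _ _ _ _ _ m (ENNReal.ofReal_pos.2 hs).ne' ENNReal.ofReal_ne_top h2
    (hBAM d m (m * d) hm rfl)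

end Pool.Agent.CL
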