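import Pool.Agent.helper41.CL.Spec

/-!
# cl:EX: a vertex of degree at least three or two nonadjacent vertices of degree two
-/

set_option autoImplicit false

open Finset

namespace Pool.Agent.helper41.CL

/-- the number of pairs -/
theorem EX_choose (t : ℕ) (ht : 2 ≤ t) : t - 1 ≤ t.choose 2 := by
  rw [Nat.choose_two_right, Nat.le_div_iff_mul_le (by norm_num), mul_comm]
  exact Nat.mul_le_mul_right _ ht

theorem EX (h1 : DC_stmt) : EX_stmt := by
  intro α _ V E D hE hD hcard
  by_cases hdeg : ∃ p, 3 ≤ #(inc E p)
  · exact Or.inl hdeg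
  · right
    push Not at hdeg
    by_contra hno
    push Not at hno
    have hdc := h1 α V E D hE hD
    obtain ⟨P, hP⟩ : ∃ P : Finset α, P = D.filter (fun x => #(inc E x) = 2) := ⟨_, rfl⟩
    have hsum : ∑ x ∈ D, #(inc E x) ≤ #D + #P := by
      have e1 : #P = ∑ x ∈ D, if #(inc E x) = 2 then 1 else 0 := by
        rw [hP, Finset.card_filter]
      have e2 : #D = ∑ x ∈ D, 1 := by simp
      rw [e1, e2, ← Finset.sum_add_distrib]
      refine Finset.sum_le_sum fun x _ => ?_
      have := hdeg x
      split_ifs with h <;> omega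
    have hi : (#P).choose 2 ≤ #(E.filter fun e => e ⊆ D) := by
      rw [← Finset.card_powersetCard]
      refine Finset.card_le_card fun e he => ?_
      rw [Finset.mem_powersetCard] at he
      obtain ⟨he1, he2⟩ := he
      obtain ⟨p, q, hpq, rfl⟩ := Finset.card_eq_two.1 he2
      have hp : p ∈ P := he1 (by simp)
      have hq : q ∈ P := he1 (by simp)
      have hPD : P ⊆ D := by
        rw [hP]
        exact Finset.filter_subset _ _
      rw [Finset.mem_filter]
      refine ⟨?_, he1.trans hPD⟩
      rw [hP, Finset.mem_filter] at hp hq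
      exact hno p q hpq hp.2 hq.2
    have ht : 2 ≤ #P := by omega
    have := EX_choose _ ht
    omega

end Pool.Agent.helper41.CL
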