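import Pool.Agent.helper41.CL.SpecC

/-!
# cl:WG: the value of the conjectured bound for `n = 2 k`
-/

set_option autoImplicit false

open Finset

namespace Pool.Agent.helper41.CL

theorem WG : WG_stmt := by
  intro k hk
  obtain ⟨u, rfl⟩ : ∃ u, k = u + 3 := ⟨k - 3, by omega⟩
  unfold target partSize
  have hr : u + 3 - 1 = u + 2 := by omega
  rw [hr]
  have h1 : (2 * (u + 3) + (u + 2) - 1) / (u + 2) = 3 := by
    rw [Nat.div_eq_iff (by omega)]
    constructor <;> omega
  have h2 : (2 * (u + 3) + (u + 2) - 2) / (u + 2) = 3 := by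
    rw [Nat.div_eq_iff (by omega)]
    constructor <;> omega
  have h3 : ∀ i ∈ Icc 3 (u + 2), (2 * (u + 3) + (u + 2) - i) / (u + 2) = 2 := by
    intro i hi
    rw [Finset.mem_Icc] at hi
    rw [Nat.div_eq_iff (by omega)]
    constructor <;> omega
  rw [h1, h2, Finset.prod_congr rfl h3, Finset.prod_const, Nat.card_Icc]
  have h4 : u + 2 + 1 - 3 = u := by omega
  rw [h4, pow_add]
  omega

end Pool.Agent.helper41.CL
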